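import Pool.Agent.H474.MS.Nt4

set_option autoImplicit false

/-! # The Gaussian law for Möbius sums over short intervals, in the iterated limit

`Z δ u` is the sum of `μ(n)` over the interval `u < n ≤ (1+δ) u` of length `H = δ u`, divided by `√(H/ζ(2))`, `1/ζ(2) = 6/π²`. First
`u → ∞` in the sense of logarithmic averages, with `δ` fixed, then `δ → 0`. -/

namespace Pool.Agent.Results.MP_4f18df_nt.IteratedGaussianLaw

open Filter Topology MeasureTheory

/-- The Mertens function `M(u)`, the sum of the Möbius function over the integers `1 ≤ n ≤ u`. -/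
noncomputable def M (u : ℝ) : ℝ := ∑ n ∈ Finset.Icc 1 ⌊u⌋₊, ((ArithmeticFunction.moebius n : ℤ) : ℝ)

/-- The sum of `μ(n)` over `u < n ≤ (1+δ) u`, divided by `√(H/ζ(2))`, `H = δ u`. -/
noncomputable def Z (δ u : ℝ) : ℝ := (M ((1 + δ) * u) - M u) / √(6 / Real.pi ^ 2 * δ * u)

/-- The mean of `g(u)` over `[1, x]` with respect to the logarithmic measure `du/u`. -/
noncomputable def logMean (g : ℝ → ℝ) (x : ℝ) : ℝ := (∫ u in (1 : ℝ)..x, g u / u) / Real.log x

/-- The nontrivial zeros of the Riemann zeta function. -/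
def Zeros : Set ℂ := {ρ | riemannZeta ρ = 0 ∧ 0 < ρ.re ∧ ρ.re < 1}

/-- The weight, in `[0, ∞]`, of a zero `ρ`: it is `1 / |ρ ζ'(ρ)|²` if `ρ` is simple and on the critical line, and `∞` otherwise. -/
noncomputable def weight (ρ : ℂ) : ENNReal :=
  if ρ.re = 1 / 2 ∧ deriv riemannZeta ρ ≠ 0 then ENNReal.ofReal (1 / ‖ρ * deriv riemannZeta ρ‖ ^ 2) else ⊤

/-- The variance `v(δ)`, in `[0, ∞]`: the sum over the zeros of `|(1+δ)^ρ - 1|² weight(ρ)`, divided by `δ/ζ(2)`. -/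
noncomputable def variance (δ : ℝ) : ENNReal :=
  ∑' ρ : Zeros, weight ρ * ENNReal.ofReal (‖((1 + δ : ℝ) : ℂ) ^ (ρ : ℂ) - 1‖ ^ 2 / (6 / Real.pi ^ 2 * δ))

/-- `J_{-1}(T)`, in `[0, ∞]`: the sum of `1 / |ζ'(ρ)|²` over the zeros with `0 < Im ρ ≤ T`. -/
noncomputable def J (T : ℝ) : ENNReal :=
  ∑' ρ : Zeros, if 0 < (ρ : ℂ).im ∧ (ρ : ℂ).im ≤ T then (ENNReal.ofReal (‖deriv riemannZeta ρ‖ ^ 2))⁻¹ else 0

/-- Gonek's conjecture: the Riemann hypothesis and `J_{-1}(T) ~ (3/π³) T`. -/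
def Gonek : Prop :=
  RiemannHypothesis ∧ Tendsto (fun T => J T / ENNReal.ofReal T) atTop (𝓝 (ENNReal.ofReal (3 / Real.pi ^ 3)))

/-- `ν` is the limiting distribution of `Z δ` with respect to logarithmic averages. -/
def IsLimitLaw (δ : ℝ) (ν : ProbabilityMeasure ℝ) : Prop :=
  ∀ φ : ℝ → ℝ, Continuous φ → (∃ B : ℝ, ∀ t, |φ t| ≤ B) →
    Tendsto (logMean fun u => φ (Z δ u)) atTop (𝓝 (∫ t, φ t ∂(ν : Measure ℝ)))

/-- The standard normal law. -/
noncomputable def normalLaw : ProbabilityMeasure ℝ := ⟨ProbabilityTheory.gaussianReal 0 1, inferInstance⟩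

/-- The Gaussian law in the iterated limit: for every `δ > 0` the sums have a limiting distribution `ν δ`, and `ν δ` converges
weakly to the standard normal law as `δ → 0+`. -/
def GaussianLaw : Prop :=
  ∃ ν : ℝ → ProbabilityMeasure ℝ, (∀ δ : ℝ, 0 < δ → IsLimitLaw δ (ν δ)) ∧ Tendsto ν (𝓝[>] 0) (𝓝 normalLaw)

/-- For one `δ > 0` the logarithmic mean of `Z²` is bounded along some sequence of `x → ∞`. -/
def SomeMeanBounded : Prop := ∃ δ : ℝ, 0 < δ ∧ ∃ C : ℝ, ∃ᶠ x : ℝ in atTop, logMean (fun u => Z δ u ^ 2) x ≤ C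

/-- The set of the positive ordinates of the nontrivial zeros. -/
def ordinates : Set ℝ := {γ | 0 < γ ∧ ∃ ρ ∈ Zeros, ρ.im = γ}

/-- The positive ordinates of the zeros are linearly independent over the rational numbers. -/
def OrdinatesIndependent : Prop := LinearIndependent ℚ (fun γ : ordinates => (γ : ℝ))

lemma li_of (hz : Pool.Agent.H474.MS.ZC) (h : OrdinatesIndependent) : Pool.Agent.H474.MS.LI := by
  have h1 := h.comp (fun ρ : {ρ : ℂ // ρ ∈ Zeros ∧ 0 < ρ.im} => (⟨(ρ : ℂ).im, ρ.2.2, ρ, ρ.2.1, rfl⟩ : ordinates)) (by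
    intro a b hab
    have h2 : (a : ℂ).im = (b : ℂ).im := congrArg Subtype.val hab
    apply Subtype.ext
    apply Complex.ext
    · rw [(hz.strip a.2.1).1, (hz.strip b.2.1).1]
    · exact h2)
  exact h1

lemma some_iff : SomeMeanBounded ↔ Pool.Agent.H474.MS.ZC := by
  constructor
  · rintro ⟨δ, hδ, C, hC⟩
    refine Pool.Agent.H474.MS.of_vE hδ fun htop => ?_
    have h1 := Pool.Agent.H474.MS.DD_lim hδ
    rw [htop, ENNReal.tendsto_ofReal_nhds_top] at h1
    exact hC ((h1.eventually_gt_atTop C).mono fun x hx => not_le.2 hx)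
  · intro hz
    refine ⟨1, one_pos, Pool.Agent.H474.MS.vR 1 + 1, Eventually.frequently ?_⟩
    have h1 := Pool.Agent.H474.MS.cov_lim one_pos (fun t => t ^ 2) (Pool.Agent.H474.MS.gd_lim hz one_pos)
    exact (h1.eventually (gt_mem_nhds (lt_add_one _))).mono fun x hx => le_of_lt hx

/-- **Theorem.** (i) Unconditionally, for every `δ > 0` the logarithmic mean of `Z(δ, u)²` over `1 ≤ u ≤ x` tends, as `x → ∞`, to the
variance `v(δ)` in `[0, ∞]`.
(ii) `v(δ) → 1` as `δ → 0+` if and only if the Riemann hypothesis and `J_{-1}(T) ~ (3/π³) T` hold.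
(iii) If the mean of `Z²` is bounded for one `δ` along a sequence, then for every `δ > 0` the sums have a limiting distribution, with
second moment `v(δ) < ∞`.
(iv) If the ordinates of the zeros are linearly independent, then the Gaussian law in the iterated limit (with the bound of (iii)) holds
if and only if the Riemann hypothesis and `J_{-1}(T) ~ (3/π³) T` hold. -/
theorem result :
    (∀ δ : ℝ, 0 < δ → Tendsto (fun x => ENNReal.ofReal (logMean (fun u => Z δ u ^ 2) x)) atTop (𝓝 (variance δ))) ∧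
    (Tendsto variance (𝓝[>] 0) (𝓝 1) ↔ Gonek) ∧
    (SomeMeanBounded → ∀ δ : ℝ, 0 < δ → ∃ ν : ProbabilityMeasure ℝ, IsLimitLaw δ ν ∧
      Integrable (fun t : ℝ => t ^ 2) (ν : Measure ℝ) ∧ variance δ = ENNReal.ofReal (∫ t, t ^ 2 ∂(ν : Measure ℝ))) ∧
    (OrdinatesIndependent → (SomeMeanBounded ∧ GaussianLaw ↔ Gonek)) := by
  have hlim : Tendsto variance (𝓝[>] 0) (𝓝 1) ↔ Gonek := by
    have h := Pool.Agent.H474.MS.lim_iff 1 zero_le_one
    rw [ENNReal.ofReal_one, mul_one] at h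
    exact h
  refine ⟨fun δ hδ => Pool.Agent.H474.MS.DD_lim hδ, hlim, ?_, ?_⟩
  · intro hs δ hδ
    have hz := some_iff.1 hs
    obtain ⟨μ, h1, -, h3, h4⟩ := Pool.Agent.H474.MS.law_quad hz hδ
    refine ⟨μ, h1, h3, ?_⟩
    rw [h4]
    exact Pool.Agent.H474.MS.vE_eq hz hδ
  · intro hLI
    constructor
    · rintro ⟨hs, ν, hν, hlaw⟩
      have hz := some_iff.1 hs
      have h1 := (Pool.Agent.H474.MS.gauss_iff hz (li_of hz hLI) ν hν).1 hlaw
      refine ⟨hz.1, ?_⟩
      have h2 := (Pool.Agent.H474.MS.lim_iff_ZC hz 1 zero_le_one).1 h1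
      rw [mul_one] at h2
      exact h2
    · intro hG
      have h1 := (Pool.Agent.H474.MS.lim_iff 1 zero_le_one).2 (by rw [mul_one]; exact hG)
      have h2 : ∀ᶠ δ in 𝓝[>] (0 : ℝ), Pool.Agent.H474.MS.vE δ < ⊤ := h1.eventually (gt_mem_nhds ENNReal.ofReal_lt_top)
      obtain ⟨δ, hδ, hδ0⟩ := (h2.and self_mem_nhdsWithin).exists
      have hz : Pool.Agent.H474.MS.ZC := Pool.Agent.H474.MS.of_vE hδ0 hδ.ne
      refine ⟨some_iff.2 hz, ?_⟩
      classical
      obtain ⟨ν, hν⟩ : ∃ ν : ℝ → ProbabilityMeasure ℝ, ∀ δ : ℝ, 0 < δ → Pool.Agent.H474.MS.IsLaw δ (ν δ) := by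
        refine ⟨fun δ => if h : 0 < δ then (Pool.Agent.H474.MS.law_quad hz h).choose else normalLaw, fun δ hδ => ?_⟩
        beta_reduce
        rw [dif_pos hδ]
        exact (Pool.Agent.H474.MS.law_quad hz hδ).choose_spec.1
      refine ⟨ν, hν, (Pool.Agent.H474.MS.gauss_iff hz (li_of hz hLI) ν hν).2 ?_⟩
      refine (Pool.Agent.H474.MS.lim_iff_ZC hz 1 zero_le_one).2 ?_
      rw [mul_one]
      exact hG.2

end Pool.Agent.Results.MP_4f18df_nt.IteratedGaussianLaw
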