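import Pool.Agent.H611.GL.Law
import Pool.Agent.H611.GL.Destroy

set_option autoImplicit false

/-!
# The Gaussian law of Good and Churchhouse under changes of the signs at a thin set of primes

For almost every completely multiplicative twist `μ χ` of the Moebius function the Gaussian law in short
intervals (for all `H = H(X)` with `X ^ ε < H < X ^ (1 - ε)`) survives ARBITRARY changes of the signs `χ(p)`
at the primes `p` of a set `Q` with `∑ q ^ (-s) < ∞` for some `s < 1/2`. The exponent `1/2` is sharp: for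
every `0 < θ < 1` there is a set `Q` of primes with `∑ q ^ (-s) < ∞` for all `s > 1 - θ/2` such that EVERY
twist `μ χ`, in particular `μ` itself, can be changed at the primes of `Q` so that the law fails for the
windows of length `H = X ^ θ`: at arbitrarily large `X` the distribution function has distance at least
`η(θ) > 0` from the normal one.
-/

namespace Pool.Agent.Results.MP_4f18df_nt.SharpStability

open Finset Filter Topology MeasureTheory Pool.Agent.Q163.RP Pool.Agent.Q163.RX Pool.Agent.Q163.GC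
  Pool.Agent.Q163.CL Pool.Agent.H611.ST Pool.Agent.H611.GL

/-- the completely multiplicative function with the value `1` or `-1` at the prime `p` according to `ω p` -/
noncomputable def chi (ω : ℕ → Bool) (n : ℕ) : ℝ :=
  ∏ p ∈ n.primeFactors, (if ω p = true then 1 else -1) ^ n.factorization p

/-- the Moebius function -/
noncomputable def moeb (n : ℕ) : ℝ := ((ArithmeticFunction.moebius n : ℤ) : ℝ)

/-- the proportion of the `x ∈ [X, 2X]` for which the sum of `f` over `|n - x| < H / 2`, divided by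
`√(H/ζ(2))`, is at most `t` -/
noncomputable def prop (f : ℕ → ℝ) (X H t : ℝ) : ℝ :=
  (MeasureTheory.volume
    {x : ℝ | x ∈ Set.Icc X (2 * X) ∧
      (∑ n ∈ (Finset.range (⌊x + H⌋₊ + 1)).filter (fun n : ℕ => |(n : ℝ) - x| < H / 2), f n)
        / Real.sqrt (H / (Real.pi ^ 2 / 6)) ≤ t}).toReal / X

/-- the standard normal distribution function -/
noncomputable def Phi (t : ℝ) : ℝ := ProbabilityTheory.cdf (ProbabilityTheory.gaussianReal 0 1) t

/-- the statement of the problem for a function `f` in place of the Moebius function -/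
def GaussianLaw (f : ℕ → ℝ) : Prop :=
  ∀ ε : ℝ, 0 < ε → ε < 1 / 2 → ∀ H : ℝ → ℝ, (∀ᶠ X in atTop, X ^ ε < H X ∧ H X < X ^ (1 - ε)) →
    ∀ t : ℝ, Tendsto (fun X : ℝ => prop f X (H X) t) atTop (𝓝 (Phi t))

/-- the product measure of fair coins, one for each natural number -/
noncomputable def coins : Measure (ℕ → Bool) :=
  Measure.infinitePi fun _ : ℕ => (PMF.bernoulli (1 / 2) (by norm_num)).toMeasure

/-- the signs `ω'` are the signs `ω` at the primes outside `Q` -/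
def SameOff (Q : Set ℕ) (ω ω' : ℕ → Bool) : Prop := ∀ p : ℕ, p.Prime → p ∉ Q → ω' p = ω p

lemma ch_eq (ω : ℕ → Bool) (n : ℕ) : ch ω n = chi ω n := by
  unfold ch chi mult sg es sgn
  refine Finset.prod_congr rfl fun p _ => ?_
  rw [if_pos (Set.mem_univ p)]

lemma fe (ω : ℕ → Bool) : (fun n => moeb n * chi ω n) = fun n => Pool.Agent.Y293.SF.mu n * ch ω n := by
  funext n
  rw [ch_eq]
  rfl

lemma fe2 (ω : ℕ → Bool) : (fun n => moeb n * chi ω n) = mc ω := fe ω

lemma sum_floor (f : ℕ → ℝ) (x H : ℝ) :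
    ∑ n ∈ (Finset.range (⌊x + H⌋₊ + 1)).filter (fun n : ℕ => |(n : ℝ) - x| < H / 2), f n =
      Mf f x H := by
  unfold Mf
  refine Finset.sum_congr ?_ fun _ _ => rfl
  ext n
  rw [Finset.mem_filter, Finset.mem_filter, Finset.mem_range, Finset.mem_range]
  refine and_congr_left fun hc => ?_
  have h1 : (n : ℝ) ≤ x + H := by
    have h3 := (abs_lt.1 hc).2
    have h4 := lt_of_le_of_lt (abs_nonneg _) hc
    linarith
  constructor
  · intro _
    have h2 : (n : ℝ) ≤ ⌈x + H⌉₊ := h1.trans (Nat.le_ceil _)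
    have : n ≤ ⌈x + H⌉₊ := by exact_mod_cast h2
    omega
  · intro _
    have := Nat.le_floor h1
    omega

lemma prop_eq (f : ℕ → ℝ) (X H t : ℝ) : prop f X H t =
    (volume {x : ℝ | x ∈ Set.Icc X (2 * X) ∧ Zn f H x ≤ t}).toReal / X := by
  unfold prop
  have e1 : ∀ x, (∑ n ∈ (Finset.range (⌊x + H⌋₊ + 1)).filter
      (fun n : ℕ => |(n : ℝ) - x| < H / 2), f n) / Real.sqrt (H / (Real.pi ^ 2 / 6)) =
      Zn f H x := by
    intro x
    rw [sum_floor]
    unfold Zn kap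
    congr 2
    field_simp
  simp_rw [e1]

lemma prop_lw (f : ℕ → ℝ) (X H t : ℝ) (hX : 0 < X) : prop f X H t = (lw f H X).real (Set.Iic t) := by
  rw [prop_eq, lw_Iic f H X hX]

lemma gl_of {f : ℕ → ℝ} (hU : UConv f) : GaussianLaw f := by
  intro ε hε hε1 H hH t
  refine (law hU ε hε hε1 H hH t).congr fun X => ?_
  rw [prop_eq]

/-- the failure of the law -/
lemma not_gl {θ : ℝ} (h0 : 0 < θ) (h1 : θ < 1) {τ : ℕ → ℕ} (hτ : ∀ k, k ≤ τ k) {R : ℕ} {η : ℝ}
    (hη : 0 < η) {f : ℕ → ℝ} (hB : ∀ k : ℕ, Bd θ R η (τ k) f) :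
    (∀ X₀ : ℝ, ∃ X : ℝ, X₀ ≤ X ∧ ∃ t : ℝ, η ≤ |prop f X (X ^ θ) t - Phi t|) ∧ ¬ GaussianLaw f := by
  have hT : Tendsto (fun k : ℕ => (2 : ℝ) ^ τ k) atTop atTop := by
    refine tendsto_atTop_mono (fun k => ?_) (tendsto_pow_atTop_atTop_of_one_lt (by norm_num : (1 : ℝ) < 2))
    exact pow_le_pow_right₀ (by norm_num) (hτ k)
  constructor
  · intro X₀
    obtain ⟨k, hk⟩ := (hT.eventually_ge_atTop X₀).exists
    obtain ⟨i, _, hi⟩ := hB k
    refine ⟨2 ^ τ k, hk, (i : ℝ) / 3, ?_⟩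
    rw [prop_lw _ _ _ _ (by positivity)]
    exact hi
  · intro hG
    set ε : ℝ := min θ (1 - θ) / 2 with hε
    have hm : 0 < min θ (1 - θ) := lt_min h0 (by linarith)
    have hm1 : min θ (1 - θ) ≤ θ := min_le_left _ _
    have hm2 : min θ (1 - θ) ≤ 1 - θ := min_le_right _ _
    have h2 := hG ε (by positivity) (by linarith) (fun X => X ^ θ) (by
      filter_upwards [eventually_gt_atTop (1 : ℝ)] with X hX
      exact ⟨Real.rpow_lt_rpow_of_exponent_lt hX (by linarith),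
        Real.rpow_lt_rpow_of_exponent_lt hX (by linarith)⟩)
    have h3 : ∀ᶠ X : ℝ in atTop, ∀ i ∈ Finset.Icc (-(R : ℤ)) R,
        |prop f X (X ^ θ) ((i : ℝ) / 3) - Phi ((i : ℝ) / 3)| < η := by
      rw [eventually_all_finset]
      intro i _
      have h4 := (Metric.tendsto_nhds.1 (h2 ((i : ℝ) / 3))) η hη
      filter_upwards [h4] with X hX
      rwa [Real.dist_eq] at hX
    obtain ⟨k, hk⟩ := (hT.eventually h3).exists
    obtain ⟨i, hi, hb⟩ := hB k
    have h5 := hk i hi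
    rw [prop_lw _ _ _ _ (by positivity)] at h5
    exact absurd h5 (not_lt.2 hb)

/-- the destruction at the length `X ^ θ` -/
theorem destroyed (θ : ℝ) (h0 : 0 < θ) (h1 : θ < 1) : ∃ Q : Set ℕ, (∀ q ∈ Q, q.Prime) ∧
    (∀ s : ℝ, 1 - θ / 2 < s → Summable fun q : Q => ((q : ℕ) : ℝ) ^ (-s)) ∧
    ∃ η : ℝ, 0 < η ∧ ∀ ω : ℕ → Bool, ∃ ω' : ℕ → Bool, SameOff Q ω ω' ∧
      (∀ X₀ : ℝ, ∃ X : ℝ, X₀ ≤ X ∧ ∃ t : ℝ,
        η ≤ |prop (fun n => moeb n * chi ω' n) X (X ^ θ) t - Phi t|) ∧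
      ¬ GaussianLaw fun n => moeb n * chi ω' n := by
  obtain ⟨τ, Qs, hsc, hgap, hlow⟩ := exists_scales θ h0 h1
  obtain ⟨R, η, hη, hpar⟩ := params (θ / 160) (by positivity)
  refine ⟨{q | ∃ k, q ∈ Qs k}, ?_, fun s hs => thin hsc hgap s h1 hs _ fun q hq => hq, η, hη,
    fun ω => ?_⟩
  · rintro q ⟨k, hk⟩
    exact ((hsc k).pr q hk).1
  obtain ⟨ω', h2, h3⟩ := destroy hsc hgap h1 R η hpar ω
  refine ⟨ω', fun p _ hpQ => h2 p fun k hk => hpQ ⟨k, hk⟩, ?_⟩
  rw [fe2]
  exact not_gl h0 h1 hlow hη h3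

/-- **The threshold `1/2` for the stability of the Gaussian law of Good and Churchhouse.** -/
theorem result :
    -- (1) stability for almost every twist under all changes on a set of exponent of convergence `< 1/2`
    (∀ (Q : Set ℕ) (s : ℝ), s < 1 / 2 → (Summable fun q : Q => ((q : ℕ) : ℝ) ^ (-s)) →
      ∀ᵐ ω ∂coins, ∀ ω' : ℕ → Bool, SameOff Q ω ω' → GaussianLaw fun n => moeb n * chi ω' n) ∧
    -- (2) for every `θ` a set of exponent of convergence at most `1 - θ/2` destroys the law at the length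
    -- `X ^ θ` for EVERY twist
    (∀ θ : ℝ, 0 < θ → θ < 1 → ∃ Q : Set ℕ, (∀ q ∈ Q, q.Prime) ∧
      (∀ s : ℝ, 1 - θ / 2 < s → Summable fun q : Q => ((q : ℕ) : ℝ) ^ (-s)) ∧
      ∃ η : ℝ, 0 < η ∧ ∀ ω : ℕ → Bool, ∃ ω' : ℕ → Bool, SameOff Q ω ω' ∧
        (∀ X₀ : ℝ, ∃ X : ℝ, X₀ ≤ X ∧ ∃ t : ℝ,
          η ≤ |prop (fun n => moeb n * chi ω' n) X (X ^ θ) t - Phi t|) ∧
        ¬ GaussianLaw fun n => moeb n * chi ω' n) ∧
    -- (3) so the exponent `1/2` in (1) is sharp
    (∀ s : ℝ, 1 / 2 < s → ∃ Q : Set ℕ, (∀ q ∈ Q, q.Prime) ∧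
      (Summable fun q : Q => ((q : ℕ) : ℝ) ^ (-s)) ∧
      ∀ ω : ℕ → Bool, ∃ ω' : ℕ → Bool, SameOff Q ω ω' ∧ ¬ GaussianLaw fun n => moeb n * chi ω' n) ∧
    -- (4) the Moebius function is one of the twists
    (∀ n, moeb n * chi (fun _ => true) n = moeb n) := by
  refine ⟨fun Q s hs hQ => ?_, destroyed, fun s hs => ?_, fun n => ?_⟩
  · have h1 : coins = cm := rfl
    rw [h1]
    filter_upwards [stable_uconv Q s hs hQ] with ω hω ω' hω'
    rw [fe]
    refine gl_of (hω ω' fun p hp hne => ?_)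
    by_contra hc
    exact hne (hω' p hp hc)
  · set θ : ℝ := max (1 / 2) (3 / 2 - s) with hθ
    have a1 : 1 / 2 ≤ θ := le_max_left _ _
    have a2 : 3 / 2 - s ≤ θ := le_max_right _ _
    have a3 : θ < 1 := max_lt (by norm_num) (by linarith)
    have a4 : 1 - θ / 2 < s := by linarith
    obtain ⟨Q, h1, h2, η, _, h3⟩ := destroyed θ (by linarith) a3
    refine ⟨Q, h1, h2 s a4, fun ω => ?_⟩
    obtain ⟨ω', h4, _, h5⟩ := h3 ω
    exact ⟨ω', h4, h5⟩
  · unfold chi
    simp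

end Pool.Agent.Results.MP_4f18df_nt.SharpStability
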